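import Pool.Agent.W859.AK.WCore

/-!
# The inequality of the configuration `W1`
-/

set_option autoImplicit false
set_option linter.unusedSectionVars false
set_option linter.unusedVariables false

open Finset

namespace Pool.Agent.W859.AK
open Pool.Agent.W904.AK

section Gen

variable {Ω Ω' : Type} [Fintype Ω] [Fintype Ω'] {W : Type} [AddCommGroup W] [Module ℚ W]

lemma supp_im {q : Ω' → ℝ} (hq : IsLaw q) {p : Ω → ℝ} {u : Ω' → Ω} (h : im q u = p) {z : Ω'}
    (hz : q z ≠ 0) : p (u z) ≠ 0 := by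
  rw [← h]
  exact (im_pos hq u hz).ne'

lemma H_congr_supp {α : Type*} {q : Ω' → ℝ} (hq : IsLaw q) {f g : Ω' → α}
    (h : ∀ z, q z ≠ 0 → f z = g z) : H q f = H q g := by
  refine H_congr hq ?_ ?_
  · intro z z' hz hz' e
    rw [← h z hz, ← h z' hz', e]
  · intro z z' hz hz' e
    rw [h z hz, h z' hz', e]

lemma Det_congr_supp {α β : Type*} {q : Ω' → ℝ} {f f' : Ω' → α} {g g' : Ω' → β}
    (h : ∀ z, q z ≠ 0 → f z = f' z) (h' : ∀ z, q z ≠ 0 → g z = g' z) (hd : Det q f g) :
    Det q f' g' := by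
  intro z z' hz hz' e
  rw [← h' z hz, ← h' z' hz']
  exact hd z z' hz hz' (by rw [h z hz, h z' hz', e])

lemma Det_im {α β : Type*} {q : Ω' → ℝ} (hq : IsLaw q) {p : Ω → ℝ} {u : Ω' → Ω}
    (h : im q u = p) {f : Ω → α} {g : Ω → β} (hd : Det p f g) :
    Det q (fun z => f (u z)) (fun z => g (u z)) := fun z z' hz hz' e =>
  hd (u z) (u z') (supp_im hq h hz) (supp_im hq h hz') e

lemma pair_law {p : Ω → ℝ} (hp : IsLaw p) (X : Ω → W) : IsLaw (pair p X) :=
  glue_law hp hp fun _ => rfl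

lemma pair_swap (p : Ω → ℝ) (X : Ω → W) (z : Ω × Ω) : pair p X z.swap = pair p X z := by
  unfold pair glue
  simp only [Prod.fst_swap, Prod.snd_swap]
  by_cases h : X z.1 = X z.2
  · rw [if_pos h, if_pos h.symm, h, mul_comm]
  · rw [if_neg h, if_neg (fun h' => h h'.symm)]

lemma im_pair_swap (p : Ω → ℝ) (X : Ω → W) : im (pair p X) Prod.swap = pair p X := by
  classical
  funext a
  have : im (pair p X) Prod.swap a = ∑ z : Ω × Ω, if z = a.swap then pair p X z else 0 := by
    rw [im_eq_sum]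
    refine Finset.sum_congr rfl fun z _ => ?_
    by_cases h : z = a.swap
    · rw [if_pos h, if_pos (by rw [h, Prod.swap_swap])]
    · rw [if_neg h, if_neg (fun h' => h (by rw [← h', Prod.swap_swap]))]
  rw [this, Finset.sum_ite_eq']
  simp [pair_swap]

lemma phi_symm {p : Ω → ℝ} (hp : IsLaw p) (X D : Ω → W) (a b : ℚ) :
    phi p X D a b = phi p X D b a := by
  unfold phi
  rw [← H_map (im_pair_swap p X) (fun z => X z.1 + b • D z.1 + a • D z.2)]
  refine H_congr_supp (pair_law hp X) ?_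
  intro z hz
  have := (glue_supp hz).1
  simp only [Prod.fst_swap, Prod.snd_swap]
  rw [this]
  module

end Gen

/-- Elementary bounds of the coordinates. -/
lemma Z3_bd {r : ℚ} (hr : 2 < r) (hr' : r < 2001 / 1000) : 29 / 100 < Z3 r ∧ Z3 r < 31 / 100 := by
  unfold Z3
  have h1 : 0 < 2 * (r + 1) * (8 * r - 1) := by
    apply mul_pos <;> linarith
  constructor
  · rw [lt_div_iff₀ h1]; nlinarith
  · rw [div_lt_iff₀ h1]; nlinarith

lemma W4_bd {r : ℚ} (hr : 2 < r) (hr' : r < 2001 / 1000) :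
    -58 / 100 < W4 r ∧ W4 r < -56 / 100 := by
  have h1 : 0 < (1 + r) * (4 * r - 1) := by
    apply mul_pos <;> linarith
  have h2 : W4 r = (2 - 3 * r) * (2 * r - 1) / ((1 + r) * (4 * r - 1)) := by
    unfold W4
    have n1 : 1 + r ≠ 0 := by linarith
    have n2 : 4 * r - 1 ≠ 0 := by linarith
    have n3 : r * 4 - 1 ≠ 0 := by linarith
    field_simp
    ring
  rw [h2]
  constructor
  · rw [lt_div_iff₀ h1]; nlinarith
  · rw [div_lt_iff₀ h1]; nlinarith

/-- Bounds of the parameter on the line through the points at height `1`. -/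
lemma th1_bd {r τ : ℚ} (hr : 2 < r) (hr' : r < 2001 / 1000) (hτ : 1000 < τ) :
    28 / 100 < th 1 (r * Z3 r) (Z3 r) τ ∧ th 1 (r * Z3 r) (Z3 r) τ < 32 / 100 := by
  obtain ⟨h1, h2⟩ := Z3_bd hr hr'
  have h3 : r * Z3 r < 63 / 100 := by nlinarith
  have h4 : 57 / 100 < r * Z3 r := by nlinarith
  have h5 : 0 < 1 * (τ - r * Z3 r - Z3 r) := by linarith
  unfold th
  constructor
  · rw [lt_div_iff₀ h5]; nlinarith
  · rw [div_lt_iff₀ h5]; nlinarith

/-- Bounds of the parameter on the line through the points at height `-1`. -/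
lemma thm_bd {r τ : ℚ} (hr : 2 < r) (hr' : r < 2001 / 1000) (hτ : 1000 < τ) :
    55 / 100 < th (-1) (r * W4 r) (W4 r) τ ∧ th (-1) (r * W4 r) (W4 r) τ < 59 / 100 := by
  obtain ⟨h1, h2⟩ := W4_bd hr hr'
  have h3 : r * W4 r < -112 / 100 := by nlinarith
  have h4 : -117 / 100 < r * W4 r := by nlinarith
  have h5 : 0 < τ - r * W4 r - W4 r := by linarith
  have h6 : th (-1) (r * W4 r) (W4 r) τ = (-W4 r * (τ + 1)) / (τ - r * W4 r - W4 r) := by
    unfold th
    rw [div_eq_div_iff (by nlinarith) h5.ne']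
    ring
  rw [h6]
  constructor
  · rw [lt_div_iff₀ h5]; nlinarith
  · rw [div_lt_iff₀ h5]; nlinarith

lemma th21_bd {θ σ : ℚ} (h1 : 28 / 100 < θ) (h2 : θ < 32 / 100) (hσ : 1000 < σ) :
    -33 / 100 < th2 1 (-1) θ σ ∧ th2 1 (-1) θ σ < -28 / 100 := by
  have h5 : 0 < σ - 1 := by linarith
  have h6 : th2 1 (-1) θ σ = (-(θ * (σ + 1))) / (σ - 1) := by
    unfold th2
    rw [div_eq_div_iff (by nlinarith) h5.ne']
    ring
  rw [h6]
  constructor
  · rw [lt_div_iff₀ h5]; nlinarith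
  · rw [div_lt_iff₀ h5]; nlinarith

lemma th2m_bd {θ σ : ℚ} (h1 : 55 / 100 < θ) (h2 : θ < 59 / 100) (hσ : 1000 < σ) :
    -59 / 100 < th2 (-1) 1 θ σ ∧ th2 (-1) 1 θ σ < -54 / 100 := by
  have h5 : 0 < σ + 1 := by linarith
  have h6 : th2 (-1) 1 θ σ = (-(θ * (σ - 1))) / (σ + 1) := by
    unfold th2
    rw [div_eq_div_iff (by nlinarith) h5.ne']
    ring
  rw [h6]
  constructor
  · rw [lt_div_iff₀ h5]; nlinarith
  · rw [div_lt_iff₀ h5]; nlinarith

lemma k1_bd {r : ℚ} (hr : 2 < r) (hr' : r < 2001 / 1000) :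
    49 / 100 < 3 / (2 * (r + 1)) ∧ 3 / (2 * (r + 1)) < 1 / 2 := by
  have h5 : 0 < 2 * (r + 1) := by linarith
  constructor
  · rw [lt_div_iff₀ h5]; nlinarith
  · rw [div_lt_iff₀ h5]; nlinarith

lemma km_bd {r : ℚ} (hr : 2 < r) (hr' : r < 2001 / 1000) :
    2 < 3 * r / (r + 1) ∧ 3 * r / (r + 1) < 201 / 100 := by
  have h5 : 0 < r + 1 := by linarith
  constructor
  · rw [lt_div_iff₀ h5]; nlinarith
  · rw [div_lt_iff₀ h5]; nlinarith

lemma chi1_bd {k θ σ : ℚ} (h1 : 28 / 100 < θ) (h2 : θ < 32 / 100) (hk : 49 / 100 < k)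
    (hk' : k < 1 / 2) (hσ : 1000 < σ) : chi 1 (-1) k 1 θ σ < -2 := by
  have h5 : 0 < (k - θ) * (σ - 1) := by apply mul_pos <;> linarith
  have h6 : 1 < 1 * θ * (σ - -1) / ((k - θ) * (σ - 1)) := by
    rw [lt_div_iff₀ h5]; nlinarith
  unfold chi
  linarith

lemma chim_bd {k θ σ : ℚ} (h1 : 55 / 100 < θ) (h2 : θ < 59 / 100) (hk : 2 < k)
    (hk' : k < 201 / 100) (hσ : 1000 < σ) :
    0 < chi (-1) 1 k 1 θ σ ∧ chi (-1) 1 k 1 θ σ < 1 := by
  have h5 : 0 < (k - θ) * (σ - -1) := by apply mul_pos <;> linarith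
  have h6 : 1 * θ * (σ - 1) / ((k - θ) * (σ - -1)) < 1 := by
    rw [div_lt_iff₀ h5]; nlinarith
  have h7 : 0 < 1 * θ * (σ - 1) / ((k - θ) * (σ - -1)) := by
    apply div_pos _ h5
    apply mul_pos _ (by linarith)
    linarith
  unfold chi
  constructor <;> linarith

theorem W (hZ : S_Z) (hWD : S_WD) : S_W := by
  intro b T w hO hb hT r hr hr'
  obtain ⟨zb1, zb2⟩ := Z3_bd hr hr'
  obtain ⟨wb1, wb2⟩ := W4_bd hr hr'
  obtain ⟨kb1, kb2⟩ := k1_bd hr hr'
  obtain ⟨mb1, mb2⟩ := km_bd hr hr'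
  obtain ⟨F1, hF1⟩ := hZ b T w hO hb 1 (-1) (3 / (2 * (r + 1))) (r * Z3 r) (Z3 r) 1 (by norm_num)
    (by norm_num) (by norm_num) (by linarith) (by norm_num) (by linarith) (by nlinarith)
    (by
      intro τ hτ
      have t1 := hT τ hτ
      obtain ⟨a1, a2⟩ := th1_bd hr hr' t1
      refine ⟨by linarith, by linarith, by linarith, ?_, ?_, ?_, ?_, ?_⟩
      · intro h; nlinarith
      · intro h; nlinarith
      · intro h; linarith
      · intro h; linarith
      · intro h; linarith)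
    (by
      intro τ hτ σ hσ
      have t1 := hT τ hτ
      have t2 := hT σ hσ
      obtain ⟨a1, a2⟩ := th1_bd hr hr' t1
      obtain ⟨b1, b2⟩ := th21_bd a1 a2 t2
      have c1 := chi1_bd a1 a2 kb1 kb2 t2
      refine ⟨?_, ?_, ?_, ?_⟩
      · intro h; linarith
      · intro h; linarith
      · intro h; linarith
      · intro h; linarith)
  obtain ⟨F2, hF2⟩ := hZ b T w hO hb (-1) 1 (3 * r / (r + 1)) (r * W4 r) (W4 r) 1 (by norm_num)
    (by norm_num) (by norm_num) (by linarith) (by norm_num) (by linarith) (by nlinarith)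
    (by
      intro τ hτ
      have t1 := hT τ hτ
      obtain ⟨a1, a2⟩ := thm_bd hr hr' t1
      refine ⟨by linarith, by linarith, by linarith, ?_, ?_, ?_, ?_, ?_⟩
      · intro h; nlinarith
      · intro h; nlinarith
      · intro h; linarith
      · intro h; linarith
      · intro h; linarith)
    (by
      intro τ hτ σ hσ
      have t1 := hT τ hτ
      have t2 := hT σ hσ
      obtain ⟨a1, a2⟩ := thm_bd hr hr' t1
      obtain ⟨b1, b2⟩ := th2m_bd a1 a2 t2
      obtain ⟨c1, c2⟩ := chim_bd a1 a2 mb1 mb2 t2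
      refine ⟨?_, ?_, ?_, ?_⟩
      · intro h; linarith
      · intro h; linarith
      · intro h; linarith
      · intro h; linarith)
  refine ⟨F1 ∪ F2 ∪ hts r, ?_⟩
  intro Ω _ W _ _ p X D h hp hd hF
  obtain ⟨Ω', _, q, L, hD⟩ := hWD Ω W p X D hp hd
  have hq := hD.law
  have hX : H p X ≤ h := by
    have := hF 0 (by simp [hts])
    have e : pos X D 0 = X := by
      funext z; simp [pos]
    rwa [e] at this
  -- basis
  have f1 : ∀ z, q z ≠ 0 → X (L 1 z) = X (L 0 z) := fun z hz => (hD.i01 z hz).symm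
  have f2 : ∀ z, q z ≠ 0 → X (L 2 z) = X (L 0 z) + D (L 0 z) - D (L 2 z) := by
    intro z hz
    have := hD.i02 z hz
    simp only [pos] at this
    linear_combination (norm := module) -this
  have f3 : ∀ z, q z ≠ 0 → X (L 3 z) = X (L 0 z) + D (L 0 z) - D (L 2 z) := by
    intro z hz
    rw [← hD.i23 z hz, f2 z hz]
  have g3 : ∀ z, q z ≠ 0 → D (L 3 z) = D (L 2 z) + D (L 1 z) - D (L 0 z) := by
    intro z hz
    have h1 := hD.i13 z hz
    have h2 := f3 z hz
    have h3 := f1 z hz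
    simp only [pos] at h1
    linear_combination (norm := module) -h1 + h3 - h2
  have f4 : ∀ z, q z ≠ 0 → X (L 4 z) = X (L 0 z) - D (L 0 z) + D (L 4 z) := by
    intro z hz
    have := hD.i04 z hz
    simp only [pos] at this
    linear_combination (norm := module) -this
  have f5 : ∀ z, q z ≠ 0 → X (L 5 z) = X (L 0 z) - D (L 0 z) + D (L 4 z) := by
    intro z hz
    rw [← hD.i45 z hz, f4 z hz]
  have g5 : ∀ z, q z ≠ 0 → D (L 5 z) = D (L 4 z) - D (L 0 z) + D (L 1 z) := by
    intro z hz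
    have h1 := hD.i15 z hz
    have h2 := f5 z hz
    have h3 := f1 z hz
    simp only [pos] at h1
    linear_combination (norm := module) h1 - h3 + h2
  have hz1 : ZD p X D 1 (-1) (4 * H p D - 2 * h - pp p X D (-1) (-1))
      (6 * H p D - 3 * h - pp p X D 1 1 - pp p X D (-1) (-1)) q
      (L 0) (L 1) (L 2) (L 3) (L 4) (L 5) :=
    { law := hq
      mc0 := hD.mL 0
      mc1 := hD.mL 1
      mn0 := hD.mL 2
      mn1 := hD.mL 3
      mf0 := hD.mL 4
      mf1 := hD.mL 5
      phic := fun a b => H_map hD.m01 (fun z => X z.1 + a • D z.1 + b • D z.2)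
      ic := hD.i01
      iN := hD.i23
      iF := hD.i45
      s0 := hD.i02
      s1 := hD.i13
      t0 := hD.i04
      t1 := hD.i15
      hQ := by
        have := hD.hQ2
        linarith
      hW := by
        have := hD.hW
        linarith }
  have hz2 : ZD p X D (-1) 1 (4 * H p D - 2 * h - pp p X D 1 1)
      (6 * H p D - 3 * h - pp p X D 1 1 - pp p X D (-1) (-1)) q
      (L 1) (L 0) (L 5) (L 4) (L 3) (L 2) :=
    { law := hq
      mc0 := hD.mL 1
      mc1 := hD.mL 0
      mn0 := hD.mL 5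
      mn1 := hD.mL 4
      mf0 := hD.mL 3
      mf1 := hD.mL 2
      phic := by
        intro a b
        have h1 := H_map hD.m01 (fun z => X z.1 + b • D z.1 + a • D z.2)
        rw [phi_symm hp, phi, ← h1]
        refine H_congr_supp hq ?_
        intro z hz
        dsimp only
        rw [f1 z hz]
        module
      ic := fun z hz => (hD.i01 z hz).symm
      iN := fun z hz => (hD.i45 z hz).symm
      iF := fun z hz => (hD.i23 z hz).symm
      s0 := hD.i15
      s1 := hD.i04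
      t0 := hD.i13
      t1 := hD.i02
      hQ := by
        have h1 := hD.hQ1
        have h2 : H q (fun z => (D (L 0 z), D (L 1 z), D (L 2 z), D (L 3 z))) =
            H q (fun z => (D (L 1 z), D (L 0 z), D (L 3 z), D (L 2 z))) := by
          refine H_congr hq ?_ ?_
          · intro z z' _ _ e
            simp only [Prod.mk.injEq] at e ⊢
            exact ⟨e.2.1, e.1, e.2.2.2, e.2.2.1⟩
          · intro z z' _ _ e
            simp only [Prod.mk.injEq] at e ⊢
            exact ⟨e.2.1, e.1, e.2.2.2, e.2.2.1⟩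
        rw [← h2]
        linarith
      hW := by
        have h1 := hD.hW
        have h2 : H q (fun z => (D (L 0 z), D (L 1 z), D (L 2 z), D (L 3 z), D (L 4 z),
            D (L 5 z))) = H q (fun z => (D (L 1 z), D (L 0 z), D (L 5 z), D (L 4 z), D (L 3 z),
            D (L 2 z))) := by
          refine H_congr hq ?_ ?_
          · intro z z' _ _ e
            simp only [Prod.mk.injEq] at e ⊢
            exact ⟨e.2.1, e.1, e.2.2.2.2.2, e.2.2.2.2.1, e.2.2.2.1, e.2.2.1⟩
          · intro z z' _ _ e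
            simp only [Prod.mk.injEq] at e ⊢
            exact ⟨e.2.1, e.1, e.2.2.2.2.2, e.2.2.2.2.1, e.2.2.2.1, e.2.2.1⟩
        rw [← h2]
        linarith }
  have r1 := hF1 Ω W p X D h _ _ Ω' q (L 0) (L 1) (L 2) (L 3) (L 4) (L 5) hp hd
    (fun t ht => hF t (by simp [ht])) hz1
  have r2 := hF2 Ω W p X D h _ _ Ω' q (L 1) (L 0) (L 5) (L 4) (L 3) (L 2) hp hd
    (fun t ht => hF t (by simp [ht])) hz2
  refine ⟨_, _, r1, r2, ?_⟩
  -- the heights
  have hh : ∀ i t, t ∈ hts r → H q (fun z => X (L i z) + t • D (L i z)) ≤ h := by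
    intro i t ht
    have e1 := H_map (hD.mL i) (pos X D t)
    have e2 := hF t (by simp [ht])
    have e3 : H q (fun z => X (L i z) + t • D (L i z)) = H q (fun z => pos X D t (L i z)) := rfl
    rw [e3, e1]
    exact e2
  have main := core hq (fun z => X (L 0 z)) (fun z => D (L 0 z)) (fun z => D (L 1 z))
    (fun z => D (L 2 z)) (fun z => D (L 4 z)) r hr hr' h
    (H q (fun z => (X (L 2 z) + (r * Z3 r) • D (L 2 z) + Z3 r • D (L 3 z),
        (1 - 3 / (2 * (r + 1))) • pos X D 1 (L 0 z) + (3 / (2 * (r + 1))) • pos X D 1 (L 1 z) +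
          (1 : ℚ) • D (L 4 z))))
    (H q (fun z => (X (L 5 z) + (r * W4 r) • D (L 5 z) + W4 r • D (L 4 z),
        (1 - 3 * r / (r + 1)) • pos X D (-1) (L 1 z) + (3 * r / (r + 1)) • pos X D (-1) (L 0 z) +
          (1 : ℚ) • D (L 3 z))))
    (4 * H p D - 2 * h - pp p X D 1 1)
    (6 * H p D - 3 * h - pp p X D 1 1 - pp p X D (-1) (-1))
    ?_ ?_ ?_ ?_ ?_ ?_ ?_ ?_ ?_ ?_ ?_ ?_ ?_ ?_
  · have e1 : H q (fun z => X (L 0 z) + (3 * r / (r + 1)) • D (L 0 z) +
        (3 / (r + 1)) • D (L 1 z)) = phi p X D (3 * r / (r + 1)) (3 / (r + 1)) :=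
      hz1.phic _ _
    have e2 : H q (fun z => X (L 0 z) + (1 / (1 + r)) • D (L 0 z) +
        (r / (1 + r)) • D (L 1 z)) = phi p X D (1 / (1 + r)) (r / (1 + r)) :=
      hz1.phic _ _
    have e3 : H q (fun z => X (L 0 z) + D (L 0 z) - D (L 2 z) + (r * Z3 r) • D (L 2 z) +
        Z3 r • (D (L 2 z) + D (L 1 z) - D (L 0 z))) = phi p X D (r * Z3 r) (Z3 r) := by
      have := H_map hD.m23 (fun z => X z.1 + (r * Z3 r) • D z.1 + Z3 r • D z.2)
      rw [phi, ← this]
      refine H_congr_supp hq ?_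
      intro z hz
      dsimp only
      rw [f2 z hz, g3 z hz]
    have e4 : H q (fun z => X (L 0 z) - D (L 0 z) + D (L 4 z) + W4 r • D (L 4 z) +
        (r * W4 r) • (D (L 4 z) - D (L 0 z) + D (L 1 z))) = phi p X D (W4 r) (r * W4 r) := by
      have := H_map hD.m45 (fun z => X z.1 + W4 r • D z.1 + (r * W4 r) • D z.2)
      rw [phi, ← this]
      refine H_congr_supp hq ?_
      intro z hz
      dsimp only
      rw [f4 z hz, g5 z hz]
    rw [e1, e2, e3, e4] at main
    exact main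
  · have := Det_im hq (hD.mL 2) hd
    exact Det_congr_supp (fun z _ => rfl) (fun z hz => f2 z hz) this
  · have := Det_im hq (hD.mL 3) hd
    exact Det_congr_supp (fun z hz => g3 z hz) (fun z hz => f3 z hz) this
  · have := Det_im hq (hD.mL 4) hd
    exact Det_congr_supp (fun z _ => rfl) (fun z hz => f4 z hz) this
  · have := Det_im hq (hD.mL 5) hd
    exact Det_congr_supp (fun z hz => g5 z hz) (fun z hz => f5 z hz) this
  · intro t ht
    exact hh 0 t ht
  · intro t ht
    refine le_trans (le_of_eq ?_) (hh 1 t ht)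
    exact H_congr_supp hq fun z hz => by rw [f1 z hz]
  · intro t ht
    refine le_trans (le_of_eq ?_) (hh 2 t ht)
    exact H_congr_supp hq fun z hz => by rw [f2 z hz]
  · intro t ht
    refine le_trans (le_of_eq ?_) (hh 3 t ht)
    exact H_congr_supp hq fun z hz => by rw [f3 z hz, g3 z hz]
  · intro t ht
    refine le_trans (le_of_eq ?_) (hh 4 t ht)
    exact H_congr_supp hq fun z hz => by rw [f4 z hz]
  · intro t ht
    refine le_trans (le_of_eq ?_) (hh 5 t ht)
    exact H_congr_supp hq fun z hz => by rw [f5 z hz, g5 z hz]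
  · refine le_of_eq (H_congr_supp hq fun z hz => ?_)
    simp only [Prod.mk.injEq, pos]
    rw [f2 z hz, g3 z hz, f1 z hz]
    refine ⟨rfl, ?_⟩
    module
  · refine le_of_eq (H_congr_supp hq fun z hz => ?_)
    simp only [Prod.mk.injEq, pos]
    rw [f5 z hz, g5 z hz, f1 z hz, g3 z hz]
    have n1 : r + 1 ≠ 0 := by linarith
    constructor
    · module
    · match_scalars <;> field_simp <;> ring
  · have h1 := hD.hQ1
    have h2 := H_mono hq (f := fun v => (D (L 0 v), D (L 1 v), D (L 2 v)))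
      (g := fun z => (D (L 0 z), D (L 1 z), D (L 2 z), D (L 3 z))) (by
        intro z z' hz hz' e
        simp only [Prod.mk.injEq] at e ⊢
        refine ⟨e.1, e.2.1, e.2.2, ?_⟩
        rw [g3 z hz, g3 z' hz', e.1, e.2.1, e.2.2])
    linarith
  · have h1 := hD.hW
    have h2 := H_mono hq (f := fun v => (D (L 0 v), D (L 1 v), D (L 2 v), D (L 4 v)))
      (g := fun z => (D (L 0 z), D (L 1 z), D (L 2 z), D (L 3 z), D (L 4 z), D (L 5 z))) (by
        intro z z' hz hz' e
        simp only [Prod.mk.injEq] at e ⊢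
        refine ⟨e.1, e.2.1, e.2.2.1, ?_, e.2.2.2, ?_⟩
        · rw [g3 z hz, g3 z' hz', e.1, e.2.1, e.2.2.1]
        · rw [g5 z hz, g5 z' hz', e.1, e.2.1, e.2.2.2])
    linarith

end Pool.Agent.W859.AK
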