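import Pool.Agent.W859.AK.W
import Pool.Agent.W904.AK.Final
import Pool.Agent.W349.AK.KT
import Pool.Agent.W349.AK.Avg
import Pool.Agent.W131.AK.Z
import Pool.Agent.W932.AK.WDex
import Pool.Agent.W410.AK.Step
import Pool.Agent.W790.AK.Num

/-!
# The sums-differences inequality with exponent 1.67486
-/

set_option autoImplicit false

namespace Pool.Agent.W859.AK
open Pool.Agent.W904.AK

theorem stepThm : S_STEP :=
  Pool.Agent.W410.AK.STEP Pool.Agent.W349.AK.KT
    (W Pool.Agent.W131.AK.Z Pool.Agent.W932.AK.WD_exists) Pool.Agent.W349.AK.AVG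
    Pool.Agent.W790.AK.SHIFT

theorem maxForm : ∃ T, MaxForm (167486 / 100000) T :=
  Pool.Agent.W790.AK.final stepThm minimax base

theorem sdc : SDc (167486 / 100000) :=
  Pool.Agent.W790.AK.finalSD stepThm minimax base proj

end Pool.Agent.W859.AK
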