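import Pool.Agent.W904.AK.Glue
import Pool.Agent.W904.AK.Defs

/-!
# Sums-differences below the Katz-Tao exponent: statements of the parts

A family of lines is a law `p` on a finite type `Ω` with `X D : Ω → W`, `Det p D X`;
its point at height `t` is `X + t • D`.
-/

set_option autoImplicit false

open Finset

namespace Pool.Agent.W859.AK
open Pool.Agent.W904.AK

variable {Ω : Type} [Fintype Ω] {W : Type} [AddCommGroup W] [Module ℚ W]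

/-- The point at height `t`. -/
def pos (X D : Ω → W) (t : ℚ) (x : Ω) : W := X x + t • D x

/-- Two lines of the family meeting at height `0`, independent given the meeting point. -/
noncomputable def pair (p : Ω → ℝ) (X : Ω → W) : Ω × Ω → ℝ := glue p p X X

/-- Entropy of the point `X + a D₀ + b D₁` of the plane of two lines meeting at height `0`. -/
noncomputable def phi (p : Ω → ℝ) (X D : Ω → W) (a b : ℚ) : ℝ :=
  H (pair p X) (fun z => X z.1 + a • D z.1 + b • D z.2)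

/-- Joint entropy of the points at heights `a` and `b` on two lines meeting at height `0`. -/
noncomputable def pp (p : Ω → ℝ) (X D : Ω → W) (a b : ℚ) : ℝ :=
  H (pair p X) (fun z => (pos X D a z.1, pos X D b z.2))

/-- KT: the Katz-Tao lower bound for weighted averages of `phi` over a Moebius image of the
heights (path of three lines `L₂ - L₁ - L₃`, meeting at the heights `1` and `0`). -/
def S_KT : Prop := ∀ (b : ℝ) (T : Finset ℚ) (w : ℚ → ℝ), Oracle b T w → 1 < b →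
  ∀ m t0 tp : ℚ, m ≠ 0 → t0 ≠ tp → (∀ t ∈ T, t ≠ t0 ∧ t ≠ tp) → ∃ F : Finset ℚ,
  ∀ (Ω : Type) [Fintype Ω] (W : Type) [AddCommGroup W] [Module ℚ W] (p : Ω → ℝ) (X D : Ω → W)
    (h : ℝ), IsLaw p → Det p D X → (∀ t ∈ F, H p (pos X D t) ≤ h) →
    3 * H p D - 2 * h + (b - 1) * (H p D + pp p (pos X D 1) D (-1) (-1) - 2 * h) ≤
      b * (h + ∑ t ∈ T, w t * phi p X D 1 (m * (t - t0) / (t - tp)))

/-- The data used in the Z-lemma: a centre pair `c0, c1`, a near pair `n0, n1` meeting it at the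
height `s`, a far pair `f0, f1` meeting it at the height `t`; all pairs meet at height `0`. -/
structure ZD (p : Ω → ℝ) (X D : Ω → W) (s t : ℚ) (HQ HW : ℝ) {Ω' : Type} [Fintype Ω']
    (q : Ω' → ℝ) (c0 c1 n0 n1 f0 f1 : Ω' → Ω) : Prop where
  law : IsLaw q
  mc0 : im q c0 = p
  mc1 : im q c1 = p
  mn0 : im q n0 = p
  mn1 : im q n1 = p
  mf0 : im q f0 = p
  mf1 : im q f1 = p
  phic : ∀ a b : ℚ, H q (fun z => X (c0 z) + a • D (c0 z) + b • D (c1 z)) = phi p X D a b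
  ic : ∀ z, q z ≠ 0 → X (c0 z) = X (c1 z)
  iN : ∀ z, q z ≠ 0 → X (n0 z) = X (n1 z)
  iF : ∀ z, q z ≠ 0 → X (f0 z) = X (f1 z)
  s0 : ∀ z, q z ≠ 0 → pos X D s (c0 z) = pos X D s (n0 z)
  s1 : ∀ z, q z ≠ 0 → pos X D s (c1 z) = pos X D s (n1 z)
  t0 : ∀ z, q z ≠ 0 → pos X D t (c0 z) = pos X D t (f0 z)
  t1 : ∀ z, q z ≠ 0 → pos X D t (c1 z) = pos X D t (f1 z)
  hQ : HQ ≤ H q (fun z => (D (c0 z), D (c1 z), D (f0 z), D (f1 z)))
  hW : HW ≤ H q (fun z => (D (c0 z), D (c1 z), D (n0 z), D (n1 z), D (f0 z), D (f1 z)))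

/-- The parameter of the point where the line joining the point `(z0, z1)` of the near plane to
the point at height `τ` of `n0` meets the line joining the points at height `s`. -/
def th (s z0 z1 τ : ℚ) : ℚ := z1 * (τ - s) / (s * (τ - z0 - z1))

/-- The parameter of the next point, on the line joining the points at height `t`. -/
def th2 (s t θ σ : ℚ) : ℚ := s * θ * (σ - t) / (t * (σ - s))

/-- The height on `f0`. -/
def chi (s t k ε θ σ : ℚ) : ℚ := t - ε * θ * (σ - t) / ((k - θ) * (σ - s))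

/-- Z-lemma: upper bound for `H (Z)`, where `Z` consists of the point `(z0, z1)` of the near plane
and of `κ = (1 - k) C + k C' + ε D (f0)` (`C, C'` = points at height `s` of `c0, c1`). -/
def S_Z : Prop := ∀ (b : ℝ) (T : Finset ℚ) (w : ℚ → ℝ), Oracle b T w → 1 < b →
  ∀ s t k z0 z1 ε : ℚ, s ≠ 0 → t ≠ 0 → s ≠ t → z1 ≠ 0 → ε ≠ 0 → z1 ≠ s → z0 + z1 ≠ s →
  (∀ τ ∈ T, τ ≠ 0 ∧ τ ≠ s ∧ τ ≠ t ∧ τ - z0 - z1 ≠ 0 ∧ τ ≠ z0 ∧ k ≠ th s z0 z1 τ ∧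
    s * th s z0 z1 τ ≠ t ∧ τ - s * (1 - th s z0 z1 τ) ≠ 0) →
  (∀ τ ∈ T, ∀ σ ∈ T, σ - s * (1 - th s z0 z1 τ) ≠ 0 ∧
    chi s t k ε (th s z0 z1 τ) σ ≠ t * (1 - th2 s t (th s z0 z1 τ) σ) ∧
    chi s t k ε (th s z0 z1 τ) σ ≠ t ∧ chi s t k ε (th s z0 z1 τ) σ ≠ 0) →
  ∃ F : Finset ℚ,
  ∀ (Ω : Type) [Fintype Ω] (W : Type) [AddCommGroup W] [Module ℚ W] (p : Ω → ℝ) (X D : Ω → W)
    (h HQ HW : ℝ) (Ω' : Type) [Fintype Ω'] (q : Ω' → ℝ) (c0 c1 n0 n1 f0 f1 : Ω' → Ω),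
    IsLaw p → Det p D X → (∀ t ∈ F, H p (pos X D t) ≤ h) →
    ZD p X D s t HQ HW q c0 c1 n0 n1 f0 f1 →
    (b - 1) * H q (fun z => (X (n0 z) + z0 • D (n0 z) + z1 • D (n1 z),
        (1 - k) • pos X D s (c0 z) + k • pos X D s (c1 z) + ε • D (f0 z))) ≤
      b * (2 * h + ∑ τ ∈ T, w τ * ((b * (4 * h - ∑ σ ∈ T, w σ *
          phi p X D (t * (1 - th2 s t (th s z0 z1 τ) σ)) (t * th2 s t (th s z0 z1 τ) σ)) - HQ) /
            (b - 1))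
        - ∑ τ ∈ T, w τ * phi p X D (s * (1 - th s z0 z1 τ)) (s * th s z0 z1 τ)) - HW

/-- The configuration `W1`: pairs `(0,1)`, `(2,3)`, `(4,5)`; `2, 3` meet `0, 1` at height `1`,
`4, 5` meet `0, 1` at height `-1`. -/
structure WD (p : Ω → ℝ) (X D : Ω → W) {Ω' : Type} [Fintype Ω'] (q : Ω' → ℝ)
    (L : Fin 6 → Ω' → Ω) : Prop where
  law : IsLaw q
  mL : ∀ i, im q (L i) = p
  m01 : im q (fun z => (L 0 z, L 1 z)) = pair p X
  m23 : im q (fun z => (L 2 z, L 3 z)) = pair p X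
  m45 : im q (fun z => (L 4 z, L 5 z)) = pair p X
  i01 : ∀ z, q z ≠ 0 → X (L 0 z) = X (L 1 z)
  i23 : ∀ z, q z ≠ 0 → X (L 2 z) = X (L 3 z)
  i45 : ∀ z, q z ≠ 0 → X (L 4 z) = X (L 5 z)
  i02 : ∀ z, q z ≠ 0 → pos X D 1 (L 0 z) = pos X D 1 (L 2 z)
  i13 : ∀ z, q z ≠ 0 → pos X D 1 (L 1 z) = pos X D 1 (L 3 z)
  i04 : ∀ z, q z ≠ 0 → pos X D (-1) (L 0 z) = pos X D (-1) (L 4 z)
  i15 : ∀ z, q z ≠ 0 → pos X D (-1) (L 1 z) = pos X D (-1) (L 5 z)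
  hQ1 : H q (fun z => (D (L 0 z), D (L 1 z), D (L 2 z), D (L 3 z))) =
    4 * H p D - 2 * H p X - pp p X D 1 1
  hQ2 : H q (fun z => (D (L 0 z), D (L 1 z), D (L 4 z), D (L 5 z))) =
    4 * H p D - 2 * H p X - pp p X D (-1) (-1)
  hW : H q (fun z => (D (L 0 z), D (L 1 z), D (L 2 z), D (L 3 z), D (L 4 z), D (L 5 z))) =
    6 * H p D - 3 * H p X - pp p X D 1 1 - pp p X D (-1) (-1)

/-- Existence of the configuration. -/
def S_WD : Prop := ∀ (Ω : Type) [Fintype Ω] (W : Type) [AddCommGroup W] [Module ℚ W]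
    (p : Ω → ℝ) (X D : Ω → W), IsLaw p → Det p D X →
    ∃ (Ω' : Type) (_ : Fintype Ω') (q : Ω' → ℝ) (L : Fin 6 → Ω' → Ω), WD p X D q L

/-- Coordinates (functions of the modulus `r`). -/
def Z3 (r : ℚ) : ℚ := 9 * (2 * r - 1) / (2 * (r + 1) * (8 * r - 1))
def W4 (r : ℚ) : ℚ := (2 - 3 * r) / (1 + r) * (1 - 2 * r / (4 * r - 1))

/-- The right side of the Z-lemma. -/
noncomputable def Zub (b : ℝ) (T : Finset ℚ) (w : ℚ → ℝ) (Φ : ℚ → ℚ → ℝ) (s t z0 z1 : ℚ)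
    (h HQ HW : ℝ) : ℝ :=
  b * (2 * h + ∑ τ ∈ T, w τ * ((b * (4 * h - ∑ σ ∈ T, w σ *
          Φ (t * (1 - th2 s t (th s z0 z1 τ) σ)) (t * th2 s t (th s z0 z1 τ) σ)) - HQ) /
            (b - 1))
        - ∑ τ ∈ T, w τ * Φ (s * (1 - th s z0 z1 τ)) (s * th s z0 z1 τ)) - HW

/-- The inequality of the configuration `W1`. -/
def S_W : Prop := ∀ (b : ℝ) (T : Finset ℚ) (w : ℚ → ℝ), Oracle b T w → 1 < b →
  (∀ τ ∈ T, 1000 < τ) → ∀ r : ℚ, 2 < r → r < 2001 / 1000 → ∃ F : Finset ℚ,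
  ∀ (Ω : Type) [Fintype Ω] (W : Type) [AddCommGroup W] [Module ℚ W] (p : Ω → ℝ) (X D : Ω → W)
    (h : ℝ), IsLaw p → Det p D X → (∀ t ∈ F, H p (pos X D t) ≤ h) →
    ∃ z z' : ℝ,
      (b - 1) * z ≤ Zub b T w (phi p X D) 1 (-1) (r * Z3 r) (Z3 r) h
        (4 * H p D - 2 * h - pp p X D (-1) (-1))
        (6 * H p D - 3 * h - pp p X D 1 1 - pp p X D (-1) (-1)) ∧
      (b - 1) * z' ≤ Zub b T w (phi p X D) (-1) 1 (r * W4 r) (W4 r) h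
        (4 * H p D - 2 * h - pp p X D 1 1)
        (6 * H p D - 3 * h - pp p X D 1 1 - pp p X D (-1) (-1)) ∧
      (4 * H p D - 2 * h - pp p X D 1 1) +
        2 * (6 * H p D - 3 * h - pp p X D 1 1 - pp p X D (-1) (-1)) +
        phi p X D (3 * r / (r + 1)) (3 / (r + 1)) + phi p X D (1 / (1 + r)) (r / (1 + r)) +
        phi p X D (r * Z3 r) (Z3 r) + phi p X D (W4 r) (r * W4 r) ≤ 10 * h + z + z'

/-- Affine Følner averages. -/
def S_AVG : Prop := ∀ (Q C : Finset ℚ) (ε : ℝ), 0 < ε → (∀ q ∈ Q, q ≠ 0) →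
  ∃ (G : Finset (ℚ × ℚ)) (m : ℚ × ℚ → ℝ), (∀ g ∈ G, g.1 ≠ 0) ∧ (∀ g ∈ G, 0 ≤ m g) ∧
    ∑ g ∈ G, m g = 1 ∧
    ∀ (g : ℚ → ℚ → ℝ) (R : ℝ), (∀ x y, 0 ≤ g x y) → (∀ x y, g x y ≤ R) →
      (∀ q ∈ Q, |∑ v ∈ G, m v * g (v.1 * q) v.2 - ∑ v ∈ G, m v * g v.1 v.2| ≤ ε * R) ∧
      (∀ c ∈ C, |∑ v ∈ G, m v * g v.1 (v.2 + v.1 * c) - ∑ v ∈ G, m v * g v.1 v.2| ≤ ε * R)

/-- The condition of the step. -/
def Good (b c : ℝ) : Prop := 1 < b ∧ b ≤ 2 ∧ 1 < c ∧ c ≤ b ∧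
  (b - 1) ^ 2 * (10 - (4 * c - 4) - 4 * (((b + 2) * c - 2 - b) / b) - 2 * (6 * c - 7)) +
    2 * ((b - 1) * b * (2 - ((b + 2) * c - 2 - b) / b) + b ^ 2 * (4 - ((b + 2) * c - 2 - b) / b)
      - b * (4 * c - 4) - (b - 1) * (6 * c - 7)) < 0

/-- The step (from KT, W, AVG). -/
def S_STEP : Prop := ∀ (b : ℝ) (T : Finset ℚ) (w : ℚ → ℝ), Oracle b T w → ∀ c : ℝ, Good b c →
  ∃ T' : Finset ℚ, MaxForm c T'

/-- Affine change of the heights. -/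
def S_SHIFT : Prop := ∀ (b : ℝ) (T : Finset ℚ) (w : ℚ → ℝ), Oracle b T w → ∀ N : ℚ,
  ∃ (T' : Finset ℚ) (w' : ℚ → ℝ), Oracle b T' w' ∧ ∀ t ∈ T', N < t

end Pool.Agent.W859.AK
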