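import Pool.Agent.W859.AK.Stm

/-!
# The inequality of the configuration `W1`: linear algebra and submodularity
-/

set_option autoImplicit false
set_option linter.unusedSectionVars false
set_option linter.unusedVariables false

open Finset

namespace Pool.Agent.W859.AK
open Pool.Agent.W904.AK

/-- The heights used. -/
def hts (r : ℚ) : Finset ℚ :=
  {0, 1, -1, 3 * (2 * r - 1) / (4 * (r + 1)), 9 / (2 * (r + 1)), (2 - 3 * r) / (1 + r),
    (2 * r - 1) * (2 - 3 * r) / (2 * (1 + r)), 3 * (1 - r) / (3 - r), 3 * (r - 1) / (3 * r - 1),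
    9 / ((1 + r) * (9 - 2 * r)), 7, 21 / (4 * r + 7)}

section Core

variable {Ω' : Type} [Fintype Ω'] {W : Type} [AddCommGroup W] [Module ℚ W] {q : Ω' → ℝ}

theorem core (hq : IsLaw q) (A x0 x1 x2 x4 : Ω' → W) (r : ℚ) (hr : 2 < r)
    (hr' : r < 2001 / 1000) (h z z' HQ HW : ℝ)
    (d2 : Det q x2 (fun v => A v + x0 v - x2 v))
    (d3 : Det q (fun v => x2 v + x1 v - x0 v) (fun v => A v + x0 v - x2 v))
    (d4 : Det q x4 (fun v => A v - x0 v + x4 v))
    (d5 : Det q (fun v => x4 v - x0 v + x1 v) (fun v => A v - x0 v + x4 v))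
    (h0 : ∀ t ∈ hts r, H q (fun v => A v + t • x0 v) ≤ h)
    (h1 : ∀ t ∈ hts r, H q (fun v => A v + t • x1 v) ≤ h)
    (h2 : ∀ t ∈ hts r, H q (fun v => A v + x0 v - x2 v + t • x2 v) ≤ h)
    (h3 : ∀ t ∈ hts r, H q (fun v => A v + x0 v - x2 v + t • (x2 v + x1 v - x0 v)) ≤ h)
    (h4 : ∀ t ∈ hts r, H q (fun v => A v - x0 v + x4 v + t • x4 v) ≤ h)
    (h5 : ∀ t ∈ hts r, H q (fun v => A v - x0 v + x4 v + t • (x4 v - x0 v + x1 v)) ≤ h)
    (hz : H q (fun v => (A v + x0 v - x2 v + (r * Z3 r) • x2 v + Z3 r • (x2 v + x1 v - x0 v),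
      (1 - 3 / (2 * (r + 1))) • (A v + x0 v) + (3 / (2 * (r + 1))) • (A v + x1 v) + x4 v)) ≤ z)
    (hz' : H q (fun v => (A v - x0 v + x4 v + W4 r • x4 v + (r * W4 r) • (x4 v - x0 v + x1 v),
      (3 * r / (r + 1)) • (A v - x0 v) - ((2 * r - 1) / (r + 1)) • (A v - x1 v) +
        (x2 v + x1 v - x0 v))) ≤ z')
    (hQ : HQ ≤ H q (fun v => (x0 v, x1 v, x2 v)))
    (hW : HW ≤ H q (fun v => (x0 v, x1 v, x2 v, x4 v))) :
    HQ + 2 * HW + H q (fun v => A v + (3 * r / (r + 1)) • x0 v + (3 / (r + 1)) • x1 v) +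
      H q (fun v => A v + (1 / (1 + r)) • x0 v + (r / (1 + r)) • x1 v) +
      H q (fun v => A v + x0 v - x2 v + (r * Z3 r) • x2 v + Z3 r • (x2 v + x1 v - x0 v)) +
      H q (fun v => A v - x0 v + x4 v + W4 r • x4 v + (r * W4 r) • (x4 v - x0 v + x1 v)) ≤
    10 * h + z + z' := by
  have n1 : r + 1 ≠ 0 := by linarith
  have n1' : 1 + r ≠ 0 := by linarith
  have n2 : 8 * r - 1 ≠ 0 := by linarith
  have n3 : 4 * r - 1 ≠ 0 := by linarith
  have n4 : 3 * r - 2 ≠ 0 := by linarith
  have n4' : 2 - 3 * r ≠ 0 := by linarith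
  have n5 : 1 - r ≠ 0 := by linarith
  have n5' : r - 1 ≠ 0 := by linarith
  have n6 : 3 - r ≠ 0 := by linarith
  have n7 : 3 * r - 1 ≠ 0 := by linarith
  have n8 : 9 - 2 * r ≠ 0 := by linarith
  have n9 : 2 * r - 7 ≠ 0 := by linarith
  have n9' : 7 - 2 * r ≠ 0 := by linarith
  have n10 : 4 * r + 7 ≠ 0 := by linarith
  have n11 : 2 * r - 1 ≠ 0 := by linarith
  have n12 : 3 - 2 * r ≠ 0 := by linarith
  have n13 : r ≠ 0 := by linarith
  have m2 : r * 8 - 1 ≠ 0 := by linarith
  have m3 : r * 4 - 1 ≠ 0 := by linarith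
  have m4 : r * 3 - 2 ≠ 0 := by linarith
  have m4' : 2 - r * 3 ≠ 0 := by linarith
  have m7 : r * 3 - 1 ≠ 0 := by linarith
  have m8 : 9 - r * 2 ≠ 0 := by linarith
  have m9 : r * 2 - 7 ≠ 0 := by linarith
  have m9' : 7 - r * 2 ≠ 0 := by linarith
  have m10 : r * 4 + 7 ≠ 0 := by linarith
  have m11 : r * 2 - 1 ≠ 0 := by linarith
  have m12 : 3 - r * 2 ≠ 0 := by linarith
  -- the special points
  set FZ : Ω' → W := fun v => A v + x0 v - x2 v + (r * Z3 r) • x2 v +
    Z3 r • (x2 v + x1 v - x0 v) with hFZ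
  set FZ' : Ω' → W := fun v => A v - x0 v + x4 v + W4 r • x4 v +
    (r * W4 r) • (x4 v - x0 v + x1 v) with hFZ'
  set B : Ω' → W := fun v => A v + (3 * r / (r + 1)) • x0 v + (3 / (r + 1)) • x1 v with hB
  set FN : Ω' → W := fun v => A v + (1 / (1 + r)) • x0 v + (r / (1 + r)) • x1 v with hFN
  set P2 : Ω' → W := fun v => A v + x0 v - x2 v + (3 * (2 * r - 1) / (4 * (r + 1))) • x2 v
    with hP2
  set P3 : Ω' → W := fun v => A v + x0 v - x2 v + (9 / (2 * (r + 1))) • (x2 v + x1 v - x0 v)
    with hP3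
  set P4 : Ω' → W := fun v => A v - x0 v + x4 v + ((2 - 3 * r) / (1 + r)) • x4 v with hP4
  set P5 : Ω' → W := fun v => A v - x0 v + x4 v +
    ((2 * r - 1) * (2 - 3 * r) / (2 * (1 + r))) • (x4 v - x0 v + x1 v) with hP5
  set U0 : Ω' → W := fun v => A v + (3 * (1 - r) / (3 - r)) • x0 v with hU0
  set U1 : Ω' → W := fun v => A v + (3 * (r - 1) / (3 * r - 1)) • x1 v with hU1
  set V2 : Ω' → W := fun v => A v + x0 v - x2 v + (9 / ((1 + r) * (9 - 2 * r))) • x2 v with hV2
  set Y0 : Ω' → W := fun v => A v + (7 : ℚ) • x0 v with hY0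
  set Y1 : Ω' → W := fun v => A v + (21 / (4 * r + 7)) • x1 v with hY1
  set E2 : Ω' → W := fun v => (2 : ℚ) • FN v - B v with hE2
  set x3 : Ω' → W := fun v => x2 v + x1 v - x0 v with hx3
  set x5 : Ω' → W := fun v => x4 v - x0 v + x1 v with hx5
  set kap : Ω' → W := fun v => (1 - 3 / (2 * (r + 1))) • (A v + x0 v) +
    (3 / (2 * (r + 1))) • (A v + x1 v) + x4 v with hkap
  set kap' : Ω' → W := fun v => (3 * r / (r + 1)) • (A v - x0 v) -
    ((2 * r - 1) / (r + 1)) • (A v - x1 v) + (x2 v + x1 v - x0 v) with hkap'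
  -- the entropies of lines through two special points
  have e23 : H q (fun v => (P2 v, P3 v)) ≤ 2 * h := by
    have := subadd hq (Det.refl q (fun v => (P2 v, P3 v)))
    have k1 := h2 (3 * (2 * r - 1) / (4 * (r + 1))) (by simp [hts])
    have k2 := h3 (9 / (2 * (r + 1))) (by simp [hts])
    linarith
  have e45 : H q (fun v => (P4 v, P5 v)) ≤ 2 * h := by
    have := subadd hq (Det.refl q (fun v => (P4 v, P5 v)))
    have k1 := h4 ((2 - 3 * r) / (1 + r)) (by simp [hts])
    have k2 := h5 ((2 * r - 1) * (2 - 3 * r) / (2 * (1 + r))) (by simp [hts])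
    linarith
  have eU : H q (fun v => (U0 v, U1 v)) ≤ 2 * h := by
    have := subadd hq (Det.refl q (fun v => (U0 v, U1 v)))
    have k1 := h0 (3 * (1 - r) / (3 - r)) (by simp [hts])
    have k2 := h1 (3 * (r - 1) / (3 * r - 1)) (by simp [hts])
    linarith
  have eV : H q (fun v => (V2 v, P3 v)) ≤ 2 * h := by
    have := subadd hq (Det.refl q (fun v => (V2 v, P3 v)))
    have k1 := h2 (9 / ((1 + r) * (9 - 2 * r))) (by simp [hts])
    have k2 := h3 (9 / (2 * (r + 1))) (by simp [hts])
    linarith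
  have eY : H q (fun v => (Y0 v, Y1 v)) ≤ 2 * h := by
    have := subadd hq (Det.refl q (fun v => (Y0 v, Y1 v)))
    have k1 := h0 7 (by simp [hts])
    have k2 := h1 (21 / (4 * r + 7)) (by simp [hts])
    linarith
  -- everywhere valid relations
  have rFZ : ∀ v, FZ v = (6 * r / (8 * r - 1)) • P2 v + ((2 * r - 1) / (8 * r - 1)) • P3 v := by
    intro v
    simp only [hFZ, hP2, hP3, Z3]
    match_scalars <;> field_simp <;> ring
  have rx4 : ∀ v, x4 v = kap v - (2 / 3 : ℚ) • P2 v - (1 / 3 : ℚ) • P3 v := by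
    intro v
    simp only [hkap, hP2, hP3]
    match_scalars <;> field_simp <;> ring
  have rFZ' : ∀ v, FZ' v = ((2 * r - 1) / (4 * r - 1)) • P4 v + (2 * r / (4 * r - 1)) • P5 v := by
    intro v
    simp only [hFZ', hP4, hP5, W4]
    match_scalars <;> field_simp <;> ring
  have rx3 : ∀ v, x3 v = kap' v - (3 * r / (3 * r - 2)) • P4 v + (2 / (3 * r - 2)) • P5 v := by
    intro v
    simp only [hx3, hkap', hP4, hP5]
    match_scalars <;> field_simp <;> ring
  -- (b)
  have b1 : H q (fun v => (x4 v, P2 v, P3 v)) + H q FZ ≤ z + 2 * h := by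
    have := submod' hq (f := fun v => (FZ v, kap v)) (g := fun v => (P2 v, P3 v)) (h := FZ)
      (k := fun v => (x4 v, P2 v, P3 v)) (Det.fst q _ _)
      (by
        intro v v' _ _ e
        simp only [Prod.mk.injEq] at e
        rw [rFZ v, rFZ v', e.1, e.2])
      (by
        intro v v' _ _ e
        simp only [Prod.mk.injEq] at e ⊢
        refine ⟨?_, e.2.1, e.2.2⟩
        rw [rx4 v, rx4 v', e.1.2, e.2.1, e.2.2])
    linarith
  have b2 : H q (fun v => (x3 v, P4 v, P5 v)) + H q FZ' ≤ z' + 2 * h := by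
    have := submod' hq (f := fun v => (FZ' v, kap' v)) (g := fun v => (P4 v, P5 v)) (h := FZ')
      (k := fun v => (x3 v, P4 v, P5 v)) (Det.fst q _ _)
      (by
        intro v v' _ _ e
        simp only [Prod.mk.injEq] at e
        rw [rFZ' v, rFZ' v', e.1, e.2])
      (by
        intro v v' _ _ e
        simp only [Prod.mk.injEq] at e ⊢
        refine ⟨?_, e.2.1, e.2.2⟩
        rw [rx3 v, rx3 v', e.1.2, e.2.1, e.2.2])
    linarith
  -- (c)
  have rP4 : ∀ v, P4 v = (A v - x0 v + x4 v) + ((2 - 3 * r) / (1 + r)) • x4 v := fun v => rfl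
  have rB : ∀ v, B v = (4 / 3 : ℚ) • P2 v + (2 / 3 : ℚ) • P3 v - (A v - x0 v + x4 v) + x4 v := by
    intro v
    simp only [hB, hP2, hP3]
    match_scalars <;> field_simp <;> ring
  have rB' : ∀ v, B v = (2 : ℚ) • (A v + x0 v - x2 v) + (2 : ℚ) • x3 v -
      (3 * r / (3 * r - 2)) • P4 v + (2 / (3 * r - 2)) • P5 v := by
    intro v
    simp only [hB, hP4, hP5, hx3]
    match_scalars <;> field_simp <;> ring
  have rP3 : ∀ v, P3 v = (A v + x0 v - x2 v) + (9 / (2 * (r + 1))) • x3 v := fun v => rfl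
  have c1 : H q (fun v => (x0 v, x1 v, x2 v, x4 v)) + H q (fun v => (P3 v, P4 v, B v)) ≤
      H q (fun v => (x4 v, P2 v, P3 v)) + H q (fun v => (x3 v, P4 v, P5 v)) := by
    refine submod' hq ?_ ?_ ?_
    · intro v v' hv hv' e
      simp only [Prod.mk.injEq] at e ⊢
      have e1 := d4 v v' hv hv' e.1
      dsimp only at e1
      refine ⟨e.2.2, ?_, ?_⟩
      · rw [rP4 v, rP4 v', e1, e.1]
      · rw [rB v, rB v', e1, e.1, e.2.1, e.2.2]
    · intro v v' hv hv' e
      simp only [Prod.mk.injEq] at e ⊢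
      have e1 := d3 v v' hv hv' e.1
      dsimp only at e1
      refine ⟨?_, e.2.1, ?_⟩
      · rw [rP3 v, rP3 v', e1, e.1]
      · rw [rB' v, rB' v', e1, e.1, e.2.1, e.2.2]
    · intro v v' hv hv' e
      simp only [Prod.mk.injEq] at e ⊢
      obtain ⟨⟨ea, eb, ec⟩, ed, ee, ef⟩ := e
      have e1 := d4 v v' hv hv' ea
      have e2 := d3 v v' hv hv' ed
      dsimp only at e1 e2
      have e3 : x2 v = x2 v' := by
        simp only [hP2] at eb
        linear_combination (norm := skip) (4 * (r + 1) / (3 * (2 * r - 1))) • eb -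
          (4 * (r + 1) / (3 * (2 * r - 1))) • e2
        match_scalars <;> field_simp <;> ring
      have e4 : x0 v = x0 v' := by
        linear_combination (norm := module) (1 / 2 : ℚ) • e2 + (1 / 2 : ℚ) • e3 -
          (1 / 2 : ℚ) • e1 + (1 / 2 : ℚ) • ea
      refine ⟨e4, ?_, e3, ea⟩
      have ed' : x2 v + x1 v - x0 v = x2 v' + x1 v' - x0 v' := ed
      linear_combination (norm := module) ed' - e3 + e4
  -- (d)
  have rFN : ∀ v, FN v = ((3 - r) / (3 * (1 - r) * (1 + r))) • U0 v +
      (r * (3 * r - 1) / (3 * (r - 1) * (1 + r))) • U1 v := by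
    intro v
    simp only [hFN, hU0, hU1]
    match_scalars <;> field_simp <;> ring
  have rBU : ∀ v, B v = (r * (3 - r) / ((1 - r) * (1 + r))) • U0 v +
      ((3 * r - 1) / ((r - 1) * (1 + r))) • U1 v := by
    intro v
    simp only [hB, hU0, hU1]
    match_scalars <;> field_simp <;> ring
  have rFN' : ∀ v, FN v = ((9 - 2 * r) / 9) • V2 v + (2 * r / 9) • P3 v := by
    intro v
    simp only [hFN, hV2, hP3]
    match_scalars <;> field_simp <;> ring
  have d1 : H q (fun v => (P3 v, B v, E2 v)) + H q FN ≤ 4 * h := by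
    have := submod' hq (f := fun v => (U0 v, U1 v)) (g := fun v => (V2 v, P3 v)) (h := FN)
      (k := fun v => (P3 v, B v, E2 v))
      (by
        intro v v' _ _ e
        simp only [Prod.mk.injEq] at e
        rw [rFN v, rFN v', e.1, e.2])
      (by
        intro v v' _ _ e
        simp only [Prod.mk.injEq] at e
        rw [rFN' v, rFN' v', e.1, e.2])
      (by
        intro v v' _ _ e
        simp only [Prod.mk.injEq] at e ⊢
        refine ⟨e.2.2, ?_, ?_⟩
        · rw [rBU v, rBU v', e.1.1, e.1.2]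
        · simp only [hE2]
          rw [rBU v, rBU v', rFN v, rFN v', e.1.1, e.1.2])
    linarith
  have d2' : H q (fun v => (x0 v, x1 v, x2 v, x4 v)) + H q (fun v => (P3 v, B v)) ≤
      H q (fun v => (P3 v, B v, E2 v)) + H q (fun v => (P3 v, P4 v, B v)) := by
    refine submod' hq ?_ ?_ ?_
    · intro v v' _ _ e
      simp only [Prod.mk.injEq] at e ⊢
      exact ⟨e.1, e.2.1⟩
    · intro v v' _ _ e
      simp only [Prod.mk.injEq] at e ⊢
      exact ⟨e.1, e.2.2⟩
    · intro v v' hv hv' e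
      simp only [Prod.mk.injEq] at e ⊢
      obtain ⟨⟨ea, eb, ec⟩, _, ee, _⟩ := e
      have e5 : x5 v = x5 v' := by
        simp only [hE2, hB, hFN] at ec
        simp only [hP4] at ee
        simp only [hx5]
        linear_combination (norm := skip) ((1 + r) / (3 - 2 * r)) • ee -
          ((1 + r) / (3 - 2 * r)) • ec
        match_scalars <;> field_simp <;> ring
      have e1 := d5 v v' hv hv' e5
      dsimp only at e1
      have e4 : x4 v = x4 v' := by
        simp only [hP4] at ee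
        linear_combination (norm := skip) ((1 + r) / (2 - 3 * r)) • ee -
          ((1 + r) / (2 - 3 * r)) • e1
        match_scalars <;> field_simp <;> ring
      -- E and E'
      have eE : A v - x0 v = A v' - x0 v' := by
        linear_combination (norm := module) e1 - e4
      have eE' : A v - x1 v = A v' - x1 v' := by
        have e5' : x4 v - x0 v + x1 v = x4 v' - x0 v' + x1 v' := e5
        linear_combination (norm := module) e1 - e5'
      -- x1 - x0 and A + ... are known; B gives the rest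
      have e0 : x0 v = x0 v' := by
        simp only [hB] at eb
        linear_combination (norm := skip) (1 / 4 : ℚ) • eb -
          ((r + 4) / (4 * (r + 1))) • eE + (3 / (4 * (r + 1))) • eE'
        match_scalars <;> field_simp <;> ring
      have e01 : x1 v = x1 v' := by
        linear_combination (norm := module) eE - eE' + e0
      refine ⟨e0, e01, ?_, e4⟩
      simp only [hP3] at ea
      have eA : A v = A v' := by
        linear_combination (norm := module) eE + e0
      rw [eA, e0, e01] at ea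
      linear_combination (norm := skip) ((2 * (r + 1)) / (7 - 2 * r)) • ea
      match_scalars <;> field_simp <;> ring
  -- (e)
  have rBY : ∀ v, B v = (3 * r / (7 * (r + 1))) • Y0 v + ((4 * r + 7) / (7 * (r + 1))) • Y1 v := by
    intro v
    simp only [hB, hY0, hY1]
    match_scalars <;> field_simp <;> ring
  have rx2 : ∀ v, x2 v = (2 * (r + 1) / (2 * r - 7)) • (((2 * r - 7) / (14 * (r + 1))) • Y0 v +
      (3 * (4 * r + 7) / (14 * (r + 1))) • Y1 v - P3 v) := by
    intro v
    simp only [hY0, hY1, hP3]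
    match_scalars <;> field_simp <;> ring
  have e1 : H q (fun v => (x0 v, x1 v, x2 v)) + H q B ≤
      H q (fun v => (P3 v, B v)) + H q (fun v => (Y0 v, Y1 v)) := by
    refine submod' hq (Det.snd q _ _) ?_ ?_
    · intro v v' _ _ e
      simp only [Prod.mk.injEq] at e
      rw [rBY v, rBY v', e.1, e.2]
    · intro v v' hv hv' e
      simp only [Prod.mk.injEq] at e ⊢
      obtain ⟨⟨ea, eb⟩, ec, ed⟩ := e
      have f2 : x2 v = x2 v' := by
        rw [rx2 v, rx2 v', ea, ec, ed]
      have f1 := d2 v v' hv hv' f2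
      dsimp only at f1
      have f0 : x0 v = x0 v' := by
        simp only [hY0] at ec
        linear_combination (norm := module) (1 / 6 : ℚ) • ec - (1 / 6 : ℚ) • f1 -
          (1 / 6 : ℚ) • f2
      refine ⟨f0, ?_, f2⟩
      have fA : A v = A v' := by
        linear_combination (norm := module) f1 + f2 - f0
      simp only [hY1] at ed
      rw [fA] at ed
      linear_combination (norm := skip) ((4 * r + 7) / 21) • ed
      match_scalars <;> field_simp <;> ring
  linarith

end Core

end Pool.Agent.W859.AK
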